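import Mathlib

/-!
# Polynomial numerical indices of `ℓ₁(ι)`: definitions and basic facts
-/

set_option autoImplicit false
set_option linter.unusedVariables false

open scoped ComplexConjugate

namespace Pool.Agent.Y290.L1

section Definitions

variable {X : Type*} [NormedAddCommGroup X] [NormedSpace ℂ X]

/-- The norm of the `k`-homogeneous polynomial `x ↦ A (x, …, x)` given by the bounded
`k`-linear map `A`: the supremum of `‖A (x, …, x)‖` over the unit sphere. -/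
noncomputable def polyNorm {k : ℕ} (A : ContinuousMultilinearMap ℂ (fun _ : Fin k => X) X) : ℝ :=
  sSup {r : ℝ | ∃ x : X, ‖x‖ = 1 ∧ r = ‖A (fun _ => x)‖}

/-- The numerical radius of the `k`-homogeneous polynomial `x ↦ A (x, …, x)`: the supremum of
`|f (A (x, …, x))|` over all `x`, `f` of norm one with `f x = 1`. -/
noncomputable def numRadius {k : ℕ} (A : ContinuousMultilinearMap ℂ (fun _ : Fin k => X) X) : ℝ :=
  sSup {r : ℝ | ∃ (x : X) (f : X →L[ℂ] ℂ), ‖x‖ = 1 ∧ ‖f‖ = 1 ∧ f x = 1 ∧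
    r = ‖f (A (fun _ => x))‖}

variable (X) in
/-- The `k`-th polynomial numerical index of `X`: the infimum of the numerical radii of the
`k`-homogeneous polynomials of norm one. -/
noncomputable def polyIndex (k : ℕ) : ℝ :=
  sInf {r : ℝ | ∃ A : ContinuousMultilinearMap ℂ (fun _ : Fin k => X) X,
    polyNorm A = 1 ∧ r = numRadius A}

end Definitions

section General

variable {X : Type*} [NormedAddCommGroup X] [NormedSpace ℂ X] {k : ℕ}

lemma apply_le (A : ContinuousMultilinearMap ℂ (fun _ : Fin k => X) X) {x : X} (hx : ‖x‖ = 1) :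
    ‖A (fun _ => x)‖ ≤ ‖A‖ := by
  have := A.le_opNorm (fun _ => x)
  simpa [hx] using this

lemma polyNorm_bdd (A : ContinuousMultilinearMap ℂ (fun _ : Fin k => X) X) :
    BddAbove {r : ℝ | ∃ x : X, ‖x‖ = 1 ∧ r = ‖A (fun _ => x)‖} := by
  refine ⟨‖A‖, ?_⟩
  rintro _ ⟨x, hx, rfl⟩
  exact apply_le A hx

lemma le_polyNorm (A : ContinuousMultilinearMap ℂ (fun _ : Fin k => X) X) {x : X}
    (hx : ‖x‖ = 1) : ‖A (fun _ => x)‖ ≤ polyNorm A :=
  le_csSup (polyNorm_bdd A) ⟨x, hx, rfl⟩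

lemma numRadius_bdd (A : ContinuousMultilinearMap ℂ (fun _ : Fin k => X) X) :
    BddAbove {r : ℝ | ∃ (x : X) (f : X →L[ℂ] ℂ), ‖x‖ = 1 ∧ ‖f‖ = 1 ∧ f x = 1 ∧
      r = ‖f (A (fun _ => x))‖} := by
  refine ⟨‖A‖, ?_⟩
  rintro _ ⟨x, f, hx, hf, _, rfl⟩
  calc ‖f (A (fun _ => x))‖ ≤ ‖f‖ * ‖A (fun _ => x)‖ := f.le_opNorm _
    _ = ‖A (fun _ => x)‖ := by rw [hf, one_mul]
    _ ≤ ‖A‖ := apply_le A hx

lemma numRadius_nonneg (A : ContinuousMultilinearMap ℂ (fun _ : Fin k => X) X) :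
    0 ≤ numRadius A := by
  apply Real.sSup_nonneg
  rintro _ ⟨x, f, _, _, _, rfl⟩
  exact norm_nonneg _

lemma polyNorm_nonneg (A : ContinuousMultilinearMap ℂ (fun _ : Fin k => X) X) :
    0 ≤ polyNorm A := by
  apply Real.sSup_nonneg
  rintro _ ⟨x, _, rfl⟩
  exact norm_nonneg _

lemma le_numRadius (A : ContinuousMultilinearMap ℂ (fun _ : Fin k => X) X) {x : X}
    {f : X →L[ℂ] ℂ} (hx : ‖x‖ = 1) (hf : ‖f‖ = 1) (hfx : f x = 1) :
    ‖f (A (fun _ => x))‖ ≤ numRadius A :=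
  le_csSup (numRadius_bdd A) ⟨x, f, hx, hf, hfx, rfl⟩

lemma index_bddBelow :
    BddBelow {r : ℝ | ∃ A : ContinuousMultilinearMap ℂ (fun _ : Fin k => X) X,
      polyNorm A = 1 ∧ r = numRadius A} := by
  refine ⟨0, ?_⟩
  rintro _ ⟨A, _, rfl⟩
  exact numRadius_nonneg A

/-- Homogeneous form of `le_numRadius`. -/
lemma le_numRadius_hom (A : ContinuousMultilinearMap ℂ (fun _ : Fin k => X) X) {y : X}
    {f : X →L[ℂ] ℂ} (hy : y ≠ 0) (hf : ‖f‖ ≤ 1) (hfy : f y = (‖y‖ : ℂ)) :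
    ‖f (A (fun _ => y))‖ ≤ numRadius A * ‖y‖ ^ k := by
  have hn : 0 < ‖y‖ := norm_pos_iff.2 hy
  have hnc : (‖y‖ : ℂ) ≠ 0 := by exact_mod_cast hn.ne'
  set x : X := (‖y‖ : ℂ)⁻¹ • y with hx
  have hxn : ‖x‖ = 1 := by
    rw [hx, norm_smul, norm_inv, Complex.norm_real, norm_norm]
    exact inv_mul_cancel₀ hn.ne'
  have hfx : f x = 1 := by
    rw [hx, map_smul, hfy, smul_eq_mul, inv_mul_cancel₀ hnc]
  have hf1 : ‖f‖ = 1 := by
    apply le_antisymm hf
    have := f.le_opNorm x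
    rw [hfx, hxn] at this
    simpa using this
  have h1 := le_numRadius A hxn hf1 hfx
  have h2 : (fun _ : Fin k => y) = fun _ : Fin k => (‖y‖ : ℂ) • x := by
    funext i
    rw [hx, smul_smul, mul_inv_cancel₀ hnc, one_smul]
  rw [h2, A.map_smul_univ (fun _ => (‖y‖ : ℂ)) (fun _ => x)]
  simp only [Finset.prod_const, Finset.card_univ, Fintype.card_fin, map_smul, norm_smul, norm_pow,
    Complex.norm_real, norm_norm]
  rw [mul_comm]
  gcongr

/-- Upper bounds for the index. -/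
lemma index_le (A : ContinuousMultilinearMap ℂ (fun _ : Fin k => X) X) {N B : ℝ} (hN : 0 < N)
    (h1 : N ≤ polyNorm A) (h2 : numRadius A ≤ B) : polyIndex X k ≤ B / N := by
  have hM : 0 < polyNorm A := hN.trans_le h1
  set M := polyNorm A with hMdef
  have hMc : (M : ℂ) ≠ 0 := by exact_mod_cast hM.ne'
  set A' : ContinuousMultilinearMap ℂ (fun _ : Fin k => X) X := (M : ℂ)⁻¹ • A with hA'
  have happ : ∀ x : X, A' (fun _ => x) = (M : ℂ)⁻¹ • A (fun _ => x) := fun x => rfl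
  have hnorm : ∀ x : X, ‖A' (fun _ => x)‖ = M⁻¹ * ‖A (fun _ => x)‖ := by
    intro x
    rw [happ, norm_smul, norm_inv, Complex.norm_real, Real.norm_of_nonneg hM.le]
  have hB : 0 ≤ B := (numRadius_nonneg A).trans h2
  have hp : polyNorm A' = 1 := by
    apply le_antisymm
    · apply Real.sSup_le _ zero_le_one
      rintro _ ⟨x, hx, rfl⟩
      rw [hnorm, inv_mul_le_iff₀ hM, mul_one]
      exact le_polyNorm A hx
    · have : M ≤ M * polyNorm A' := by
        conv_lhs => rw [hMdef]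
        apply Real.sSup_le _ (mul_nonneg hM.le (polyNorm_nonneg A'))
        rintro _ ⟨x, hx, rfl⟩
        have h3 := le_polyNorm A' hx
        rw [hnorm, inv_mul_le_iff₀ hM] at h3
        exact h3
      have h4 : M * 1 ≤ M * polyNorm A' := by rwa [mul_one]
      exact le_of_mul_le_mul_left h4 hM
  refine (csInf_le index_bddBelow ⟨A', hp, rfl⟩).trans ?_
  calc numRadius A' ≤ B / M := by
        apply Real.sSup_le _ (by positivity)
        rintro _ ⟨x, f, hx, hf, hfx, rfl⟩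
        rw [happ, map_smul, norm_smul, norm_inv, Complex.norm_real, Real.norm_of_nonneg hM.le,
          inv_mul_le_iff₀ hM, mul_div_cancel₀ _ hM.ne']
        exact (le_numRadius A hx hf hfx).trans h2
    _ ≤ B / N := by gcongr

/-- Lower bounds for the index. -/
lemma le_index {c : ℝ} (hc : 0 ≤ c)
    (hne : ∃ A : ContinuousMultilinearMap ℂ (fun _ : Fin k => X) X, polyNorm A = 1)
    (h : ∀ (A : ContinuousMultilinearMap ℂ (fun _ : Fin k => X) X) (x : X), ‖x‖ = 1 →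
      c * ‖A (fun _ => x)‖ ≤ numRadius A) : c ≤ polyIndex X k := by
  obtain ⟨A₀, hA₀⟩ := hne
  refine le_csInf ⟨_, A₀, hA₀, rfl⟩ ?_
  rintro _ ⟨A, hA, rfl⟩
  rcases hc.eq_or_lt with rfl | hc
  · exact numRadius_nonneg A
  have h1 : polyNorm A ≤ numRadius A / c := by
    apply Real.sSup_le _ (div_nonneg (numRadius_nonneg A) hc.le)
    rintro _ ⟨x, hx, rfl⟩
    rw [le_div_iff₀ hc, mul_comm]
    exact h A x hx
  rw [hA, le_div_iff₀ hc, one_mul] at h1
  exact h1

end General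

end Pool.Agent.Y290.L1
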