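import Pool.Agent.Y290.L1.Upper

/-!
# The limit
-/

set_option autoImplicit false
set_option linter.unusedVariables false

open Filter Topology

namespace Pool.Agent.Y290.L1

lemma tendsto_phi : Tendsto (fun n : ℕ => (n : ℝ) * phi n) atTop (𝓝 (Real.exp (-1))) := by
  have h1 := (tendsto_add_atTop_iff_nat 1).2 (Real.tendsto_one_add_div_pow_exp (-1))
  refine h1.congr fun n => ?_
  rw [phi]
  push_cast
  have h2 : (1 : ℝ) + -1 / (n + 1) = n / (n + 1) := by field_simp; ring
  rw [h2, div_pow, pow_succ (n : ℝ)]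
  ring

lemma tendsto_phi_zero : Tendsto (fun n : ℕ => phi n) atTop (𝓝 0) := by
  have h1 := tendsto_phi.mul (tendsto_one_div_atTop_nhds_zero_nat (𝕜 := ℝ))
  rw [mul_zero] at h1
  refine h1.congr' ?_
  filter_upwards [eventually_gt_atTop 0] with n hn
  have : (n : ℝ) ≠ 0 := by exact_mod_cast hn.ne'
  field_simp

lemma tendsto_base : Tendsto (fun m : ℕ => √((m : ℝ) + 2) * √(phi (2 * m + 3))) atTop
    (𝓝 (1 / √(2 * Real.exp 1))) := by
  have h1 : Tendsto (fun m : ℕ => 2 * m + 3) atTop atTop :=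
    tendsto_atTop_mono (fun m => by simp only [id]; omega) tendsto_id
  have h2 := ((tendsto_phi.comp h1).add (tendsto_phi_zero.comp h1)).const_mul (1 / 2 : ℝ)
  have h3 := (Real.continuous_sqrt.tendsto _).comp h2
  have e1 : √(1 / 2 * (Real.exp (-1) + 0)) = 1 / √(2 * Real.exp 1) := by
    have e0 : (1 : ℝ) / 2 * (Real.exp (-1) + 0) = (2 * Real.exp 1)⁻¹ := by
      rw [add_zero, Real.exp_neg, mul_inv, one_div]
    rw [e0, Real.sqrt_inv, one_div]
  rw [e1] at h3
  refine h3.congr fun m => ?_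
  simp only [Function.comp]
  have h7 : √((m : ℝ) + 2) * √(phi (2 * m + 3)) =
      √(1 / 2 * (((2 * m + 3 : ℕ) : ℝ) * phi (2 * m + 3) + phi (2 * m + 3))) := by
    rw [← Real.sqrt_mul (by positivity)]
    congr 1
    push_cast
    ring
  rw [h7]

lemma tendsto_upper : Tendsto (fun m : ℕ => √((m : ℝ) + 2) *
    (√(phi (2 * m + 3)) + (1 / 2) ^ (m + 2))) atTop (𝓝 (1 / √(2 * Real.exp 1))) := by
  have h4 : Tendsto (fun m : ℕ => √((m : ℝ) + 2) * (1 / 2 : ℝ) ^ (m + 2)) atTop (𝓝 0) := by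
    have h5 := (tendsto_add_atTop_iff_nat 2).2
      (tendsto_self_mul_const_pow_of_lt_one (r := (1 / 2 : ℝ)) (by norm_num) (by norm_num))
    refine squeeze_zero (fun m => by positivity) (fun m => ?_) h5
    push_cast
    apply mul_le_mul_of_nonneg_right _ (by positivity)
    rw [Real.sqrt_le_left (by positivity)]
    nlinarith [(Nat.cast_nonneg m : (0 : ℝ) ≤ m)]
  have h6 := tendsto_base.add h4
  rw [add_zero] at h6
  refine h6.congr fun m => ?_
  ring

variable {ι : Type*}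

theorem limit {p q : ι} (hpq : p ≠ q) :
    Tendsto (fun k : ℕ => √(k : ℝ) * polyIndex (Ell1 ι) k) atTop
      (𝓝 (1 / √(2 * Real.exp 1))) := by
  rw [← tendsto_add_atTop_iff_nat 2]
  refine tendsto_of_tendsto_of_tendsto_of_le_of_le tendsto_base tendsto_upper ?_ ?_
  · intro m
    show _ ≤ √((m + 2 : ℕ) : ℝ) * polyIndex (Ell1 ι) (m + 2)
    push_cast
    exact mul_le_mul_of_nonneg_left (lower_gen m hpq) (Real.sqrt_nonneg _)
  · intro m
    show √((m + 2 : ℕ) : ℝ) * polyIndex (Ell1 ι) (m + 2) ≤ _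
    push_cast
    have := upper_gen (m + 1) hpq
    rw [show 2 * (m + 1) + 1 = 2 * m + 3 by ring, show m + 1 + 1 = m + 2 by ring] at this
    exact mul_le_mul_of_nonneg_left this (Real.sqrt_nonneg _)

end Pool.Agent.Y290.L1
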