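import Pool.Agent.Y290.L1.Defs

/-!
# Lower bound for the polynomial numerical index of `ℓ₁(ι)`
-/

set_option autoImplicit false
set_option linter.unusedVariables false

open scoped ComplexConjugate

namespace Pool.Agent.Y290.L1

/-- the complex space `ℓ₁(ι)` -/
noncomputable abbrev Ell1 (ι : Type*) := lp (fun _ : ι => ℂ) 1

variable {ι : Type*}

lemma summ (x : Ell1 ι) : Summable fun i => ‖x i‖ := by
  have := (lp.memℓp x).summable (by simp)
  simpa using this

lemma norm_eq (x : Ell1 ι) : ‖x‖ = ∑' i, ‖x i‖ := by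
  have := lp.norm_eq_tsum_rpow (p := 1) (by simp) x
  simpa using this

lemma mem_of_summable {g : ι → ℂ} (h : Summable fun i => ‖g i‖) : Memℓp g 1 :=
  memℓp_gen (by simpa using h)

lemma summ_mul {b : ι → ℂ} {C : ℝ} (hb : ∀ i, ‖b i‖ ≤ C) (y : Ell1 ι) :
    Summable fun i => ‖b i * y i‖ := by
  refine Summable.of_nonneg_of_le (fun i => norm_nonneg _) (fun i => ?_) ((summ y).mul_left C)
  rw [norm_mul]
  exact mul_le_mul_of_nonneg_right (hb i) (norm_nonneg _)

/-- coordinatewise product with a bounded sequence -/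
noncomputable def mulE (b : ι → ℂ) (C : ℝ) (hb : ∀ i, ‖b i‖ ≤ C) (y : Ell1 ι) : Ell1 ι :=
  ⟨fun i => b i * y i, mem_of_summable (summ_mul hb y)⟩

lemma mulE_apply (b : ι → ℂ) (C : ℝ) (hb : ∀ i, ‖b i‖ ≤ C) (y : Ell1 ι) (i : ι) :
    mulE b C hb y i = b i * y i := rfl

/-- the functional with the coefficients `b` -/
noncomputable def fn (b : ι → ℂ) (hb : ∀ i, ‖b i‖ ≤ 1) : Ell1 ι →L[ℂ] ℂ :=
  LinearMap.mkContinuous
    { toFun := fun y => ∑' i, b i * y i
      map_add' := fun y z => by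
        rw [← (summ_mul hb y).of_norm.tsum_add (summ_mul hb z).of_norm]
        refine tsum_congr fun i => ?_
        rw [lp.coeFn_add, Pi.add_apply, mul_add]
      map_smul' := fun c y => by
        rw [RingHom.id_apply, smul_eq_mul, ← tsum_mul_left]
        refine tsum_congr fun i => ?_
        rw [lp.coeFn_smul, Pi.smul_apply, smul_eq_mul]
        ring } 1 (by
    intro y
    rw [one_mul, norm_eq]
    refine (norm_tsum_le_tsum_norm (summ_mul hb y)).trans ?_
    refine (summ_mul hb y).tsum_le_tsum (fun i => ?_) (summ y)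
    rw [norm_mul]
    exact mul_le_of_le_one_left (norm_nonneg _) (hb i))

lemma fn_apply (b : ι → ℂ) (hb : ∀ i, ‖b i‖ ≤ 1) (y : Ell1 ι) : fn b hb y = ∑' i, b i * y i := rfl

lemma fn_norm (b : ι → ℂ) (hb : ∀ i, ‖b i‖ ≤ 1) : ‖fn b hb‖ ≤ 1 :=
  LinearMap.mkContinuous_norm_le _ zero_le_one _

lemma exists_phase (w : ℂ) : ∃ e : ℂ, ‖e‖ = 1 ∧ e * w = (‖w‖ : ℂ) := by
  refine ⟨Complex.exp (-(Complex.arg w) * Complex.I), ?_, ?_⟩
  · have := Complex.norm_exp_ofReal_mul_I (-(Complex.arg w))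
    push_cast at this
    exact this
  · conv_lhs => rw [← Complex.norm_mul_exp_arg_mul_I w]
    rw [mul_left_comm, ← Complex.exp_add]
    simp

lemma normsq_one_add (c z : ℂ) :
    ‖1 + c * z‖ ^ 2 = 1 + 2 * (c * z).re + ‖c‖ ^ 2 * ‖z‖ ^ 2 := by
  rw [← Complex.normSq_eq_norm_sq, Complex.normSq_add, map_one]
  rw [Complex.normSq_eq_norm_sq, norm_mul, mul_pow]
  simp
  ring

lemma one_add_ne {c z : ℂ} (hc : ‖c‖ ≤ 1) (hz : ‖z‖ < 1) : 1 + c * z ≠ 0 := by
  intro h
  have h1 : c * z = -1 := by linear_combination h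
  have h2 : ‖c * z‖ = 1 := by rw [h1]; simp
  rw [norm_mul] at h2
  have : ‖c‖ * ‖z‖ < 1 := by
    calc ‖c‖ * ‖z‖ ≤ 1 * ‖z‖ := mul_le_mul_of_nonneg_right hc (norm_nonneg _)
      _ < 1 := by rw [one_mul]; exact hz
  linarith

/-- the elementary inequality behind the choice of the weight -/
lemma weight {d z : ℂ} {ρ : ℝ} (hz : ‖z‖ = ρ) :
    1 + ρ ^ 2 + 2 * (d * z).re ≤ (1 + ρ ^ 2) * ‖1 + d / (1 + (ρ : ℂ) ^ 2) * z‖ ^ 2 := by
  have h0 : (0 : ℝ) < 1 + ρ ^ 2 := by positivity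
  have h1 : (d / (1 + (ρ : ℂ) ^ 2) * z).re = (d * z).re / (1 + ρ ^ 2) := by
    have h2 : d / (1 + (ρ : ℂ) ^ 2) * z = d * z / ((1 + ρ ^ 2 : ℝ) : ℂ) := by
      push_cast
      ring
    rw [h2, Complex.div_ofReal_re]
  rw [normsq_one_add, h1]
  have h3 : (1 + ρ ^ 2) * (1 + 2 * ((d * z).re / (1 + ρ ^ 2)) +
      ‖d / (1 + (ρ : ℂ) ^ 2)‖ ^ 2 * ‖z‖ ^ 2) =
      1 + ρ ^ 2 + 2 * (d * z).re + (1 + ρ ^ 2) * (‖d / (1 + (ρ : ℂ) ^ 2)‖ ^ 2 * ‖z‖ ^ 2) := by
    field_simp
  rw [h3]
  have : 0 ≤ (1 + ρ ^ 2) * (‖d / (1 + (ρ : ℂ) ^ 2)‖ ^ 2 * ‖z‖ ^ 2) := by positivity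
  linarith

lemma weight_norm {d : ℂ} {ρ : ℝ} (hd : ‖d‖ ≤ 1) : ‖d / (1 + (ρ : ℂ) ^ 2)‖ ≤ 1 := by
  have h1 : (1 : ℂ) + (ρ : ℂ) ^ 2 = ((1 + ρ ^ 2 : ℝ) : ℂ) := by push_cast; ring
  rw [h1, norm_div, Complex.norm_real, Real.norm_of_nonneg (by positivity),
    div_le_one (by positivity)]
  nlinarith [sq_nonneg ρ]

section Main

variable {k : ℕ}

theorem main_finite (A : ContinuousMultilinearMap ℂ (fun _ : Fin k => Ell1 ι) (Ell1 ι)) (x : Ell1 ι)
    (hx : ‖x‖ = 1) (J : Finset ι) {ρ : ℝ} (h0 : 0 < ρ) (h1 : ρ < 1) :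
    ρ / (1 + ρ ^ 2) ^ k * ∑ j ∈ J, ‖A (fun _ => x) j‖ ≤ numRadius A := by
  classical
  choose e he1 he2 using exists_phase
  set P : Ell1 ι := A (fun _ => x) with hP
  set a : ι → ℂ := fun i => e (x i) with ha
  set c : ι → ℂ := fun i => if i ∈ J then conj (e (P i)) * a i else 0 with hc
  have ha1 : ∀ i, ‖a i‖ = 1 := fun i => he1 _
  have hax : ∀ i, a i * x i = (‖x i‖ : ℂ) := fun i => he2 _
  have haa : ∀ i, a i * conj (a i) = 1 := by
    intro i
    rw [Complex.mul_conj, Complex.normSq_eq_norm_sq, ha1]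
    simp
  have hc1 : ∀ i, ‖c i‖ ≤ 1 := by
    intro i
    simp only [hc]
    split_ifs
    · rw [norm_mul, RCLike.norm_conj, he1, ha1, one_mul]
    · simp
  have hcJ : ∀ i, i ∉ J → c i = 0 := by
    intro i hi
    simp only [hc]
    rw [if_neg hi]
  have hcP : ∀ i ∈ J, a i * conj (c i) * P i = (‖P i‖ : ℂ) := by
    intro i hi
    simp only [hc]
    rw [if_pos hi, map_mul, Complex.conj_conj]
    calc a i * (e (P i) * conj (a i)) * P i = (a i * conj (a i)) * (e (P i) * P i) := by ring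
      _ = _ := by rw [haa, he2, one_mul]
  -- the curve
  have hb1 : ∀ i, ‖2 * c i‖ ≤ 2 := by
    intro i
    rw [norm_mul]
    have := hc1 i
    simp only [Complex.norm_ofNat]
    linarith
  have hb2 : ∀ i, ‖(c i) ^ 2‖ ≤ 1 := by
    intro i
    rw [norm_pow]
    exact pow_le_one₀ (norm_nonneg _) (hc1 i)
  set y : ℂ → Ell1 ι := fun z => x + z • mulE _ 2 hb1 x + z ^ 2 • mulE _ 1 hb2 x with hy
  have hyc : ∀ z i, y z i = (1 + c i * z) ^ 2 * x i := by
    intro z i
    simp only [hy, lp.coeFn_add, lp.coeFn_smul, Pi.add_apply, Pi.smul_apply, smul_eq_mul,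
      mulE_apply]
    ring
  have hyd : Differentiable ℂ y := by
    simp only [hy]
    fun_prop
  have hG : Differentiable ℂ (fun z => A (fun _ => y z)) := by
    have h2 : Differentiable ℂ (fun z => (fun _ : Fin k => y z)) :=
      differentiable_pi.2 fun _ => hyd
    exact ((A.contDiff (n := 1)).differentiable (by norm_num)).comp h2
  -- coordinates
  have hcoord : ∀ j : ι, Differentiable ℂ (fun z => (A (fun _ => y z)) j) := by
    intro j
    have hbj : ∀ i, ‖(if i = j then (1 : ℂ) else 0)‖ ≤ 1 := by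
      intro i
      split_ifs <;> simp
    have h2 : (fun z => (A (fun _ => y z)) j) =
        fun z => fn (fun i => if i = j then (1 : ℂ) else 0) hbj (A (fun _ => y z)) := by
      funext z
      rw [fn_apply, tsum_eq_single j]
      · simp
      · intro i hi
        rw [if_neg hi, zero_mul]
    rw [h2]
    exact (ContinuousLinearMap.differentiable _).comp hG
  -- norm of the curve
  set d : ℂ := ∑ j ∈ J, c j * (‖x j‖ : ℂ) with hd
  have hsumx : ∑' i, ‖x i‖ = 1 := by rw [← norm_eq, hx]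
  have hd1 : ‖d‖ ≤ 1 := by
    calc ‖d‖ ≤ ∑ j ∈ J, ‖x j‖ := by
          refine norm_sum_le_of_le _ fun j hj => ?_
          rw [norm_mul, Complex.norm_real, norm_norm]
          exact mul_le_of_le_one_left (norm_nonneg _) (hc1 j)
      _ ≤ ∑' i, ‖x i‖ := (summ x).sum_le_tsum _ (fun i _ => norm_nonneg _)
      _ = 1 := hsumx
  have hyn : ∀ z, ‖y z‖ ≤ 1 + ‖z‖ ^ 2 + 2 * (d * z).re := by
    intro z
    have hfin : Summable fun i => 2 * (c i * z).re * ‖x i‖ := by
      refine summable_of_ne_finset_zero (s := J) fun i hi => ?_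
      rw [hcJ i hi]
      simp
    have hfs : ∑' i, 2 * (c i * z).re * ‖x i‖ = 2 * (d * z).re := by
      rw [tsum_eq_sum (s := J) (fun i hi => by rw [hcJ i hi]; simp)]
      rw [hd, Finset.sum_mul, Complex.re_sum, Finset.mul_sum]
      refine Finset.sum_congr rfl fun i _ => ?_
      have : (c i * (‖x i‖ : ℂ) * z) = (‖x i‖ : ℂ) * (c i * z) := by ring
      rw [this, Complex.re_ofReal_mul]
      ring
    rw [norm_eq]
    calc ∑' i, ‖y z i‖ ≤ ∑' i, ((1 + ‖z‖ ^ 2) * ‖x i‖ + 2 * (c i * z).re * ‖x i‖) := by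
          refine (summ (y z)).tsum_le_tsum (fun i => ?_) (((summ x).mul_left _).add hfin)
          rw [hyc, norm_mul, norm_pow, normsq_one_add]
          have h3 : ‖c i‖ ^ 2 ≤ 1 := pow_le_one₀ (norm_nonneg _) (hc1 i)
          have h4 : ‖c i‖ ^ 2 * ‖z‖ ^ 2 * ‖x i‖ ≤ 1 * ‖z‖ ^ 2 * ‖x i‖ := by gcongr
          linarith
      _ = (1 + ‖z‖ ^ 2) * 1 + 2 * (d * z).re := by
          rw [((summ x).mul_left _).tsum_add hfin, tsum_mul_left, hsumx, hfs]
      _ = _ := by ring
  -- the functional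
  set b : ℂ → ι → ℂ := fun z i => a i * (1 + conj (c i) * conj z) / (1 + c i * z) with hb
  have hbn : ∀ z, ‖z‖ < 1 → ∀ i, ‖b z i‖ ≤ 1 := by
    intro z hz i
    have hne := one_add_ne (hc1 i) hz
    have h3 : (1 : ℂ) + conj (c i) * conj z = conj (1 + c i * z) := by
      rw [map_add, map_mul, map_one]
    simp only [hb]
    rw [h3, norm_div, norm_mul, RCLike.norm_conj, ha1, one_mul, div_self (norm_ne_zero_iff.2 hne)]
  have ha1' : ∀ i, ‖a i‖ ≤ 1 := fun i => (ha1 i).le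
  set U : ℂ → ℂ := fun z => fn a ha1' (A (fun _ => y z)) +
    ∑ j ∈ J, a j * (1 / (1 + c j * z) - 1) * (A (fun _ => y z)) j with hU
  set V : ℂ → ℂ := fun z => ∑ j ∈ J, a j * conj (c j) * (1 / (1 + c j * z)) *
    (A (fun _ => y z)) j with hV
  have hdec : ∀ z (hz : ‖z‖ < 1), fn (b z) (hbn z hz) (A (fun _ => y z)) =
      U z + conj z * V z := by
    intro z hz
    set w := A (fun _ => y z) with hw
    have h3 : fn (b z) (hbn z hz) w - fn a ha1' w = ∑ j ∈ J, (b z j - a j) * w j := by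
      rw [fn_apply, fn_apply, ← (summ_mul (hbn z hz) w).of_norm.tsum_sub
        (summ_mul ha1' w).of_norm]
      have h30 : ∑' j, (b z j - a j) * w j = ∑ j ∈ J, (b z j - a j) * w j := by
        apply tsum_eq_sum
        intro i hi
        have : b z i = a i := by
          simp only [hb]
          rw [hcJ i hi]
          simp
        rw [this, sub_self, zero_mul]
      rw [← h30]
      refine tsum_congr fun i => ?_
      ring
    have h4 : fn (b z) (hbn z hz) w = fn a ha1' w + ∑ j ∈ J, (b z j - a j) * w j := by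
      rw [← h3]; ring
    simp only [hU, hV]
    rw [← hw, h4, add_assoc, Finset.mul_sum, ← Finset.sum_add_distrib]
    congr 1
    refine Finset.sum_congr rfl fun j hj => ?_
    have hne := one_add_ne (hc1 j) hz
    simp only [hb]
    field_simp
    ring
  have hyv : ∀ z (hz : ‖z‖ < 1), fn (b z) (hbn z hz) (y z) = (‖y z‖ : ℂ) := by
    intro z hz
    rw [fn_apply, norm_eq, Complex.ofReal_tsum]
    refine tsum_congr fun i => ?_
    have hne := one_add_ne (hc1 i) hz
    have h3 : (1 : ℂ) + conj (c i) * conj z = conj (1 + c i * z) := by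
      rw [map_add, map_mul, map_one]
    have h5 : (1 + c i * z) * conj (1 + c i * z) = ((‖1 + c i * z‖ ^ 2 : ℝ) : ℂ) := by
      rw [Complex.mul_conj, Complex.normSq_eq_norm_sq]
    rw [hyc, norm_mul, norm_pow]
    push_cast
    push_cast at h5
    simp only [hb]
    rw [h3]
    calc a i * conj (1 + c i * z) / (1 + c i * z) * ((1 + c i * z) ^ 2 * x i)
        = (a i * x i) * ((1 + c i * z) * conj (1 + c i * z)) := by field_simp
      _ = _ := by rw [hax, h5]; ring
  have hy0 : ∀ z, ‖z‖ < 1 → y z ≠ 0 := by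
    intro z hz h
    have hx0 : x = 0 := by
      ext i
      have h3 := hyc z i
      rw [h] at h3
      have h4 := one_add_ne (hc1 i) hz
      have h5 : (0 : Ell1 ι) i = 0 := rfl
      rw [h5] at h3 ⊢
      rcases mul_eq_zero.1 h3.symm with h6 | h6
      · exact absurd (pow_eq_zero_iff (two_ne_zero) |>.1 h6) h4
      · exact h6
    rw [hx0, norm_zero] at hx
    exact zero_ne_one hx
  have hnum : ∀ z, ‖z‖ < 1 → ‖U z + conj z * V z‖ ≤ numRadius A * ‖y z‖ ^ k := by
    intro z hz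
    rw [← hdec z hz]
    exact le_numRadius_hom A (hy0 z hz) (fn_norm _ _) (hyv z hz)
  -- the maximum principle
  set a' : ℂ := d / (1 + (ρ : ℂ) ^ 2) with ha'
  have ha'1 : ‖a'‖ ≤ 1 := weight_norm hd1
  set h : ℂ → ℂ := fun z => (z * U z + (ρ : ℂ) ^ 2 * V z) / (1 + a' * z) ^ (2 * k) with hh
  have hdiff : DifferentiableOn ℂ h (Metric.ball 0 1) := by
    intro z hz
    have hz' : ‖z‖ < 1 := by simpa using hz
    have hUd : DifferentiableAt ℂ U z := by
      simp only [hU]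
      apply DifferentiableAt.add
      · exact ((ContinuousLinearMap.differentiable _).comp hG) z
      · refine DifferentiableAt.fun_sum fun j hj => ?_
        have hne := one_add_ne (hc1 j) hz'
        refine DifferentiableAt.mul ?_ (hcoord j z)
        refine DifferentiableAt.mul (differentiableAt_const _) ?_
        refine DifferentiableAt.sub ?_ (differentiableAt_const _)
        refine DifferentiableAt.div (differentiableAt_const _) ?_ hne
        fun_prop
    have hVd : DifferentiableAt ℂ V z := by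
      simp only [hV]
      refine DifferentiableAt.fun_sum fun j hj => ?_
      have hne := one_add_ne (hc1 j) hz'
      refine DifferentiableAt.mul ?_ (hcoord j z)
      refine DifferentiableAt.mul (differentiableAt_const _) ?_
      refine DifferentiableAt.div (differentiableAt_const _) ?_ hne
      fun_prop
    have hne := pow_ne_zero (2 * k) (one_add_ne ha'1 hz')
    apply DifferentiableAt.differentiableWithinAt
    simp only [hh]
    refine DifferentiableAt.div ?_ ?_ hne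
    · exact (differentiableAt_id.mul hUd).add ((differentiableAt_const _).mul hVd)
    · fun_prop
  have hcl : DiffContOnCl ℂ h (Metric.ball 0 ρ) := by
    apply hdiff.diffContOnCl_ball
    intro z hz
    have : ‖z‖ ≤ ρ := by simpa using hz
    simpa using this.trans_lt h1
  have hv0 := numRadius_nonneg A
  have hρ2 : 0 < 1 + ρ ^ 2 := by positivity
  have hfr : ∀ z ∈ frontier (Metric.ball (0 : ℂ) ρ),
      ‖h z‖ ≤ ρ * (numRadius A * (1 + ρ ^ 2) ^ k) := by
    intro z hz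
    rw [frontier_ball (0 : ℂ) h0.ne'] at hz
    have hz' : ‖z‖ = ρ := by simpa using hz
    have hz1 : ‖z‖ < 1 := by rw [hz']; exact h1
    have hzz : z * conj z = (ρ : ℂ) ^ 2 := by
      rw [Complex.mul_conj, Complex.normSq_eq_norm_sq, hz']
      push_cast
      ring
    have h3 : z * U z + (ρ : ℂ) ^ 2 * V z = z * (U z + conj z * V z) := by
      rw [← hzz]; ring
    have hpos : 0 < ‖1 + a' * z‖ := norm_pos_iff.2 (one_add_ne ha'1 hz1)
    simp only [hh]
    rw [h3, norm_div, norm_mul, norm_pow, hz', mul_div_assoc]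
    apply mul_le_mul_of_nonneg_left _ h0.le
    rw [div_le_iff₀ (by positivity)]
    refine (hnum z hz1).trans ?_
    have h4 : ‖y z‖ ≤ (1 + ρ ^ 2) * ‖1 + a' * z‖ ^ 2 := by
      refine le_trans ?_ (weight (d := d) hz')
      have := hyn z
      rwa [hz'] at this
    have h5 : ‖y z‖ ^ k ≤ (1 + ρ ^ 2) ^ k * ‖1 + a' * z‖ ^ (2 * k) := by
      rw [pow_mul, ← mul_pow]
      exact pow_le_pow_left₀ (norm_nonneg _) h4 k
    calc numRadius A * ‖y z‖ ^ k ≤ numRadius A * ((1 + ρ ^ 2) ^ k * ‖1 + a' * z‖ ^ (2 * k)) :=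
          mul_le_mul_of_nonneg_left h5 hv0
      _ = _ := by ring
  have hmax := Complex.norm_le_of_forall_mem_frontier_norm_le Metric.isBounded_ball hcl hfr
    (subset_closure (Metric.mem_ball_self h0))
  have hh0 : h 0 = (ρ : ℂ) ^ 2 * ((∑ j ∈ J, ‖P j‖ : ℝ) : ℂ) := by
    simp only [hh]
    have hy00 : y 0 = x := by simp [hy]
    have hV0 : V 0 = ((∑ j ∈ J, ‖P j‖ : ℝ) : ℂ) := by
      simp only [hV]
      rw [hy00, Complex.ofReal_sum]
      refine Finset.sum_congr rfl fun j hj => ?_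
      rw [← hcP j hj]
      simp [hP]
    rw [hV0]
    simp
  rw [hh0, norm_mul, norm_pow, Complex.norm_real, Complex.norm_real,
    Real.norm_of_nonneg h0.le, Real.norm_of_nonneg (Finset.sum_nonneg fun j _ => norm_nonneg _)]
    at hmax
  have hS : ρ * ∑ j ∈ J, ‖P j‖ ≤ numRadius A * (1 + ρ ^ 2) ^ k := by
    have : ρ * (ρ * ∑ j ∈ J, ‖P j‖) ≤ ρ * (numRadius A * (1 + ρ ^ 2) ^ k) := by
      calc ρ * (ρ * ∑ j ∈ J, ‖P j‖) = ρ ^ 2 * ∑ j ∈ J, ‖P j‖ := by ring
        _ ≤ _ := hmax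
    exact le_of_mul_le_mul_left this h0
  rw [div_mul_eq_mul_div, div_le_iff₀ (by positivity)]
  exact hS

/-- **Lower bound.** -/
theorem lower_pt (A : ContinuousMultilinearMap ℂ (fun _ : Fin k => Ell1 ι) (Ell1 ι)) (x : Ell1 ι)
    (hx : ‖x‖ = 1) {ρ : ℝ} (h0 : 0 < ρ) (h1 : ρ < 1) :
    ρ / (1 + ρ ^ 2) ^ k * ‖A (fun _ => x)‖ ≤ numRadius A := by
  have hc : 0 < ρ / (1 + ρ ^ 2) ^ k := by positivity
  rw [mul_comm, ← le_div_iff₀ hc, norm_eq]
  refine (summ _).tsum_le_of_sum_le fun J => ?_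
  rw [le_div_iff₀ hc, mul_comm]
  exact main_finite A x hx J h0 h1

/-- `φ(n) = n ^ n / (n + 1) ^ (n + 1)` -/
noncomputable def phi (n : ℕ) : ℝ := (n : ℝ) ^ n / ((n : ℝ) + 1) ^ (n + 1)

theorem lower_phi (m : ℕ)
    (A : ContinuousMultilinearMap ℂ (fun _ : Fin (m + 2) => Ell1 ι) (Ell1 ι))
    (x : Ell1 ι) (hx : ‖x‖ = 1) : √(phi (2 * m + 3)) * ‖A (fun _ => x)‖ ≤ numRadius A := by
  have hk0 : (0 : ℝ) ≤ m := Nat.cast_nonneg m
  set ρ : ℝ := √(1 / (2 * m + 3)) with hρ
  have hρ2 : ρ ^ 2 = 1 / (2 * m + 3) := Real.sq_sqrt (by positivity)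
  have h0 : 0 < ρ := Real.sqrt_pos.2 (by positivity)
  have h1 : ρ < 1 := by
    have : ρ ^ 2 < 1 := by
      rw [hρ2, div_lt_one (by positivity)]
      linarith
    nlinarith
  have h2 : √(phi (2 * m + 3)) = ρ / (1 + ρ ^ 2) ^ (m + 2) := by
    have h3 : 0 ≤ ρ / (1 + ρ ^ 2) ^ (m + 2) := by positivity
    rw [← Real.sqrt_sq h3]
    congr 1
    rw [div_pow, hρ2, ← pow_mul, phi]
    have h4 : (1 : ℝ) + 1 / (2 * m + 3) = (2 * m + 4) / (2 * m + 3) := by field_simp; ring
    rw [h4, div_pow]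
    have h5 : (m + 2) * 2 = 2 * m + 3 + 1 := by ring
    rw [h5]
    push_cast
    have h6 : (2 : ℝ) * m + 3 + 1 = 2 * m + 4 := by ring
    rw [h6, pow_succ (2 * (m : ℝ) + 3)]
    field_simp
    ring
  rw [h2]
  exact lower_pt A x hx h0 h1

end Main

end Pool.Agent.Y290.L1
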