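import Pool.Agent.Y290.L1.Lower

/-!
# Upper bound for the polynomial numerical index of `ℓ₁(ι)`
-/

set_option autoImplicit false
set_option linter.unusedVariables false

open scoped ComplexConjugate

namespace Pool.Agent.Y290.L1

variable {ι : Type*} {k : ℕ}

section Functionals

variable [DecidableEq ι]

/-- unit vectors -/
noncomputable def ev (j : ι) : Ell1 ι := lp.single 1 j (1 : ℂ)

lemma ev_apply (j i : ι) : (ev j : Ell1 ι) i = if i = j then 1 else 0 := by
  simp only [ev, lp.single_apply, Pi.single_apply]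

lemma pr_bound (j : ι) : ∀ i, ‖(if i = j then (1 : ℂ) else 0)‖ ≤ 1 := by
  intro i
  split_ifs <;> simp

/-- coordinate functionals -/
noncomputable def pr (j : ι) : Ell1 ι →L[ℂ] ℂ := fn (fun i => if i = j then (1 : ℂ) else 0)
  (pr_bound j)

lemma pr_apply (j : ι) (x : Ell1 ι) : pr j x = x j := by
  rw [pr, fn_apply, tsum_eq_single j]
  · simp
  · intro i hi
    rw [if_neg hi, zero_mul]

/-- At a unit vector `x` of `ℓ₁` every state `f` satisfies `f (e_j) x_j = |x_j|`. -/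
lemma state_apply {x : Ell1 ι} {f : Ell1 ι →L[ℂ] ℂ} (hx : ‖x‖ = 1) (hf : ‖f‖ = 1) (hfx : f x = 1)
    (j : ι) : f (ev j) * x j = (‖x j‖ : ℂ) := by
  set s : Ell1 ι := lp.single 1 j (x j) with hs
  have hs1 : s = x j • (ev j : Ell1 ι) := by
    rw [hs, ev, ← lp.single_smul, smul_eq_mul, mul_one]
  have h1 : f s = f (ev j) * x j := by
    rw [hs1, map_smul, smul_eq_mul, mul_comm]
  rw [← h1]
  have h2 : ‖s‖ = ‖x j‖ := by rw [hs, lp.norm_single (by norm_num)]
  have h3 : ‖x - s‖ = 1 - ‖x j‖ := by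
    have := lp.norm_compl_sum_single (p := 1) (by simp) x {j}
    simp only [Finset.sum_singleton, ENNReal.toReal_one, Real.rpow_one] at this
    rw [← hs, hx] at this
    exact this
  have h4 : ‖f s‖ ≤ ‖x j‖ := by
    have := f.le_opNorm s
    rwa [hf, one_mul, h2] at this
  have h5 : ‖1 - f s‖ ≤ 1 - ‖x j‖ := by
    have := f.le_opNorm (x - s)
    rwa [hf, one_mul, h3, map_sub, hfx] at this
  have h6 : ‖x j‖ ≤ (f s).re := by
    have := (Complex.re_le_norm (1 - f s)).trans h5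
    simp only [Complex.sub_re, Complex.one_re] at this
    linarith
  have h7 : (f s).re ≤ ‖x j‖ := (Complex.re_le_norm _).trans h4
  have h8 : (f s).re = ‖x j‖ := le_antisymm h7 h6
  have h9 : (f s).im = 0 := by
    have h10 := Complex.sq_norm (f s)
    rw [Complex.normSq_apply, h8] at h10
    have h11 : ‖f s‖ ^ 2 ≤ ‖x j‖ ^ 2 := pow_le_pow_left₀ (norm_nonneg _) h4 2
    nlinarith [sq_nonneg (f s).im]
  exact Complex.ext (by rw [h8]; simp) (by rw [h9]; simp)

end Functionals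

section Monomials

variable [DecidableEq ι]

/-- the monomial `x_p ^ a x_q ^ (k - a) e` -/
noncomputable def mono (k a : ℕ) (p q : ι) (e : Ell1 ι) :
    ContinuousMultilinearMap ℂ (fun _ : Fin k => Ell1 ι) (Ell1 ι) :=
  ((ContinuousMultilinearMap.mkPiAlgebra ℂ (Fin k) ℂ).compContinuousLinearMap
    (fun l : Fin k => if (l : ℕ) < a then pr p else pr q)).smulRight e

lemma mono_apply {a : ℕ} (ha : a ≤ k) (p q : ι) (e x : Ell1 ι) :
    mono k a p q e (fun _ => x) = (x p ^ a * x q ^ (k - a)) • e := by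
  have h1 : mono k a p q e (fun _ => x) =
      (∏ l : Fin k, (if (l : ℕ) < a then pr p else pr q) x) • e := by
    simp [mono]
  rw [h1]
  congr 1
  have h2 : ∀ l : Fin k, (if (l : ℕ) < a then pr p else pr q : Ell1 ι →L[ℂ] ℂ) x =
      (fun n : ℕ => if n < a then x p else x q) l := by
    intro l
    show _ = if (l : ℕ) < a then x p else x q
    split_ifs <;> rw [pr_apply]
  rw [Finset.prod_congr rfl fun l _ => h2 l, Fin.prod_univ_eq_prod_range
    (fun n : ℕ => if n < a then x p else x q) k]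
  rw [← Finset.prod_range_mul_prod_Ico _ ha]
  congr 1
  · rw [Finset.prod_congr rfl (g := fun _ => x p)]
    · simp
    · intro n hn
      rw [Finset.mem_range] at hn
      simp [hn]
  · rw [Finset.prod_congr rfl (g := fun _ => x q)]
    · simp
    · intro n hn
      rw [Finset.mem_Ico] at hn
      simp [hn.1]

end Monomials

section Binomial

lemma sum_range_two_mul (f : ℕ → ℂ) (n : ℕ) :
    ∑ j ∈ Finset.range (2 * n), f j = ∑ i ∈ Finset.range n, (f (2 * i) + f (2 * i + 1)) := by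
  induction n with
  | zero => simp
  | succ n ih =>
    rw [show 2 * (n + 1) = 2 * n + 1 + 1 by ring, Finset.sum_range_succ, Finset.sum_range_succ, ih,
      Finset.sum_range_succ]
    ring

/-- even part -/
noncomputable def q0 (m : ℕ) (s t : ℂ) : ℂ :=
  ∑ i ∈ Finset.range (m + 1), ((2 * m + 1).choose (2 * i) : ℂ) * (s ^ (m - i) * t ^ i)

/-- odd part -/
noncomputable def q1 (m : ℕ) (s t : ℂ) : ℂ :=
  ∑ i ∈ Finset.range (m + 1), ((2 * m + 1).choose (2 * i + 1) : ℂ) * (s ^ (m - i) * t ^ i)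

lemma binom_split (m : ℕ) (u v : ℂ) :
    (u + v) ^ (2 * m + 1) = u * q0 m (u ^ 2) (v ^ 2) + v * q1 m (u ^ 2) (v ^ 2) := by
  rw [add_comm u v, add_pow, show 2 * m + 1 + 1 = 2 * (m + 1) by ring, sum_range_two_mul,
    Finset.sum_add_distrib, q0, q1, Finset.mul_sum, Finset.mul_sum]
  congr 1
  · refine Finset.sum_congr rfl fun i hi => ?_
    rw [Finset.mem_range] at hi
    have h1 : 2 * m + 1 - 2 * i = 2 * (m - i) + 1 := by omega
    rw [h1, pow_succ u, pow_mul u, pow_mul v]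
    ring
  · refine Finset.sum_congr rfl fun i hi => ?_
    rw [Finset.mem_range] at hi
    have h1 : 2 * m + 1 - (2 * i + 1) = 2 * (m - i) := by omega
    rw [h1, pow_succ v, pow_mul u, pow_mul v]
    ring

lemma q0_one (m : ℕ) : q0 m 1 1 = 4 ^ m := by
  have h1 := binom_split m 1 1
  have h2 := binom_split m 1 (-1)
  have h3 : (2 : ℂ) ^ (2 * m + 1) = 2 * 4 ^ m := by
    rw [pow_succ, pow_mul]
    norm_num
    ring
  norm_num at h1 h2
  rw [h3] at h1
  linear_combination -h1 / 2 - h2 / 2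

lemma q1_one (m : ℕ) : q1 m 1 1 = 4 ^ m := by
  have h1 := binom_split m 1 1
  have h2 := binom_split m 1 (-1)
  have h3 : (2 : ℂ) ^ (2 * m + 1) = 2 * 4 ^ m := by
    rw [pow_succ, pow_mul]
    norm_num
    ring
  norm_num at h1 h2
  rw [h3] at h1
  linear_combination -h1 / 2 + h2 / 2

lemma q0_half (m : ℕ) : q0 m (1 / 2) (1 / 2) = 2 ^ m := by
  have h1 : q0 m (1 / 2) (1 / 2) = (1 / 2) ^ m * q0 m 1 1 := by
    rw [q0, q0, Finset.mul_sum]
    refine Finset.sum_congr rfl fun i hi => ?_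
    rw [Finset.mem_range] at hi
    have h2 : ((1 : ℂ) / 2) ^ m = (1 / 2) ^ (m - i) * (1 / 2) ^ i := by
      rw [← pow_add]; congr 1; omega
    rw [h2]
    simp
    ring
  rw [h1, q0_one, ← mul_pow]
  norm_num

lemma q1_half (m : ℕ) : q1 m (1 / 2) (1 / 2) = 2 ^ m := by
  have h1 : q1 m (1 / 2) (1 / 2) = (1 / 2) ^ m * q1 m 1 1 := by
    rw [q1, q1, Finset.mul_sum]
    refine Finset.sum_congr rfl fun i hi => ?_
    rw [Finset.mem_range] at hi
    have h2 : ((1 : ℂ) / 2) ^ m = (1 / 2) ^ (m - i) * (1 / 2) ^ i := by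
      rw [← pow_add]; congr 1; omega
    rw [h2]
    simp
    ring
  rw [h1, q1_one, ← mul_pow]
  norm_num

end Binomial

section Example

variable [DecidableEq ι]

/-- the extremal polynomial of degree `m + 1` -/
noncomputable def ex (m : ℕ) (p q : ι) :
    ContinuousMultilinearMap ℂ (fun _ : Fin (m + 1) => Ell1 ι) (Ell1 ι) :=
  ∑ i ∈ Finset.range (m + 1),
    (((2 * m + 1).choose (2 * i) : ℂ) • mono (m + 1) (m - i + 1) p q (ev p) -
      ((2 * m + 1).choose (2 * i + 1) : ℂ) • mono (m + 1) (m - i) p q (ev q))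

lemma ex_apply (m : ℕ) (p q : ι) (x : Ell1 ι) :
    ex m p q (fun _ => x) = (x p * q0 m (x p) (x q)) • (ev p : Ell1 ι) -
      (x q * q1 m (x p) (x q)) • (ev q : Ell1 ι) := by
  have h1 : ex m p q (fun _ => x) = ∑ i ∈ Finset.range (m + 1),
      ((((2 * m + 1).choose (2 * i) : ℂ) * (x p ^ (m - i + 1) * x q ^ i)) • (ev p : Ell1 ι) -
      (((2 * m + 1).choose (2 * i + 1) : ℂ) * (x p ^ (m - i) * x q ^ (i + 1))) •
        (ev q : Ell1 ι)) := by
    rw [ex, ContinuousMultilinearMap.sum_apply]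
    refine Finset.sum_congr rfl fun i hi => ?_
    rw [Finset.mem_range] at hi
    rw [ContinuousMultilinearMap.sub_apply, ContinuousMultilinearMap.smul_apply,
      ContinuousMultilinearMap.smul_apply, mono_apply (by omega), mono_apply (by omega),
      smul_smul, smul_smul]
    have h2 : m + 1 - (m - i + 1) = i := by omega
    have h3 : m + 1 - (m - i) = i + 1 := by omega
    rw [h2, h3]
  rw [h1, Finset.sum_sub_distrib, ← Finset.sum_smul, ← Finset.sum_smul, q0, q1, Finset.mul_sum,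
    Finset.mul_sum]
  congr 2
  · refine Finset.sum_congr rfl fun i hi => ?_
    ring
  · refine Finset.sum_congr rfl fun i hi => ?_
    ring

lemma ex_norm (m : ℕ) {p q : ι} (hpq : p ≠ q) : (2 : ℝ) ^ m ≤ polyNorm (ex m p q) := by
  set x : Ell1 ι := (1 / 2 : ℂ) • (ev p : Ell1 ι) + (1 / 2 : ℂ) • (ev q : Ell1 ι) with hx
  have hxi : ∀ i, x i = (1 / 2) * (if i = p then 1 else 0) + (1 / 2) * (if i = q then 1 else 0) := by
    intro i
    rw [hx, lp.coeFn_add, lp.coeFn_smul, lp.coeFn_smul, Pi.add_apply, Pi.smul_apply,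
      Pi.smul_apply, ev_apply, ev_apply, smul_eq_mul, smul_eq_mul]
  have hxp : x p = 1 / 2 := by rw [hxi, if_pos rfl, if_neg hpq]; ring
  have hxq : x q = 1 / 2 := by rw [hxi, if_pos rfl, if_neg hpq.symm]; ring
  have hxn : ‖x‖ = 1 := by
    rw [norm_eq, tsum_eq_sum (s := {p, q})]
    · rw [Finset.sum_pair hpq, hxp, hxq]
      norm_num
    · intro i hi
      simp only [Finset.mem_insert, Finset.mem_singleton, not_or] at hi
      rw [hxi, if_neg hi.1, if_neg hi.2]
      simp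
  refine le_trans ?_ (le_polyNorm (ex m p q) hxn)
  set P := ex m p q (fun _ => x) with hP
  have hPi : ∀ i, P i = (2 ^ m / 2) * (if i = p then 1 else 0) -
      (2 ^ m / 2) * (if i = q then 1 else 0) := by
    intro i
    rw [hP, ex_apply, hxp, hxq, q0_half, q1_half, lp.coeFn_sub, lp.coeFn_smul, lp.coeFn_smul,
      Pi.sub_apply, Pi.smul_apply, Pi.smul_apply, ev_apply, ev_apply, smul_eq_mul, smul_eq_mul]
    ring
  rw [norm_eq]
  refine le_trans ?_ ((summ P).sum_le_tsum {p, q} (fun i _ => norm_nonneg _))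
  rw [Finset.sum_pair hpq, hPi, hPi, if_pos rfl, if_pos rfl, if_neg hpq, if_neg hpq.symm]
  simp only [mul_one, mul_zero, sub_zero, zero_sub, norm_neg, norm_div, norm_pow,
    Complex.norm_ofNat]
  linarith

lemma ex_num (m : ℕ) {p q : ι} (hpq : p ≠ q) {B : ℝ} (hB : 0 ≤ B)
    (h : ∀ α β : ℝ, 0 ≤ α → 0 ≤ β → α ^ 2 + β ^ 2 ≤ 2 →
      (β * α ^ (2 * m + 1) + α * β ^ (2 * m + 1)) / 2 ≤ B) : numRadius (ex m p q) ≤ B := by
  apply Real.sSup_le _ hB
  rintro _ ⟨x, f, hx, hf, hfx, rfl⟩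
  obtain ⟨u, hu⟩ := IsAlgClosed.exists_pow_nat_eq (x p) (n := 2) (by norm_num)
  obtain ⟨v, hv⟩ := IsAlgClosed.exists_pow_nat_eq (x q) (n := 2) (by norm_num)
  have hp := state_apply hx hf hfx p
  have hq := state_apply hx hf hfx q
  have hu2 : (‖x p‖ : ℂ) = conj u * u := by
    rw [← hu, norm_pow, Complex.conj_mul']
    push_cast
    ring
  have hv2 : (‖x q‖ : ℂ) = conj v * v := by
    rw [← hv, norm_pow, Complex.conj_mul']
    push_cast
    ring
  have h1 := binom_split m u v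
  have h2 := binom_split m u (-v)
  rw [neg_sq, hu, hv] at h2
  rw [hu, hv] at h1
  have h3 : f (ex m p q (fun _ => x)) =
      ((conj u - conj v) * (u + v) ^ (2 * m + 1) + (conj u + conj v) * (u - v) ^ (2 * m + 1)) / 2 := by
    rw [ex_apply, map_sub, map_smul, map_smul, smul_eq_mul, smul_eq_mul]
    have h4 : x p * q0 m (x p) (x q) * f (ev p) = conj u * (u * q0 m (x p) (x q)) := by
      calc x p * q0 m (x p) (x q) * f (ev p) = (f (ev p) * x p) * q0 m (x p) (x q) := by ring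
        _ = _ := by rw [hp, hu2]; ring
    have h5 : x q * q1 m (x p) (x q) * f (ev q) = conj v * (v * q1 m (x p) (x q)) := by
      calc x q * q1 m (x p) (x q) * f (ev q) = (f (ev q) * x q) * q1 m (x p) (x q) := by ring
        _ = _ := by rw [hq, hv2]; ring
    rw [h4, h5, h1, sub_eq_add_neg u v, h2]
    ring
  rw [h3, norm_div, Complex.norm_ofNat]
  have h6 : ‖conj u - conj v‖ = ‖u - v‖ := by rw [← map_sub, RCLike.norm_conj]
  have h7 : ‖conj u + conj v‖ = ‖u + v‖ := by rw [← map_add, RCLike.norm_conj]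
  refine le_trans ?_ (h ‖u + v‖ ‖u - v‖ (norm_nonneg _) (norm_nonneg _) ?_)
  · apply div_le_div_of_nonneg_right _ (by norm_num)
    refine (norm_add_le _ _).trans ?_
    rw [norm_mul, norm_mul, norm_pow, norm_pow, h6, h7]
  · have h8 := parallelogram_law_with_norm ℝ u v
    have h9 : ‖u‖ ^ 2 + ‖v‖ ^ 2 ≤ 1 := by
      rw [← norm_pow, ← norm_pow, hu, hv]
      have h10 := (summ x).sum_le_tsum {p, q} (fun i _ => norm_nonneg _)
      rw [Finset.sum_pair hpq, ← norm_eq, hx] at h10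
      exact h10
    nlinarith

end Example

section Inequalities

/-- Weighted arithmetic-geometric mean inequality in the needed form. -/
lemma amgm {n : ℕ} (hn : 1 ≤ n) {x y : ℝ} (hx : 0 ≤ x) (hy : 0 ≤ y) (hxy : x + y ≤ 1) :
    x ^ n * y ≤ phi n := by
  have hk0 : (0 : ℝ) < n := by exact_mod_cast hn
  have h := Real.geom_mean_le_arith_mean2_weighted (w₁ := (n : ℝ) / (n + 1))
    (w₂ := 1 / ((n : ℝ) + 1)) (p₁ := x * (n + 1) / n) (p₂ := y * (n + 1)) (by positivity)
    (by positivity) (by positivity) (by positivity) (by field_simp)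
  have h1 : (n : ℝ) / (n + 1) * (x * (n + 1) / n) + 1 / ((n : ℝ) + 1) * (y * (n + 1)) = x + y := by
    field_simp
  rw [h1] at h
  have h2 := pow_le_pow_left₀ (by positivity) (h.trans hxy) (n + 1)
  rw [mul_pow, one_pow, ← Real.rpow_natCast, ← Real.rpow_mul (by positivity),
    ← Real.rpow_natCast, ← Real.rpow_mul (by positivity)] at h2
  have h3 : (n : ℝ) / (n + 1) * ((n + 1 : ℕ) : ℝ) = n := by push_cast; field_simp
  have h4 : 1 / ((n : ℝ) + 1) * ((n + 1 : ℕ) : ℝ) = 1 := by push_cast; field_simp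
  rw [h3, h4, Real.rpow_natCast, Real.rpow_one] at h2
  rw [phi, le_div_iff₀ (by positivity)]
  have h5 : (x * (n + 1) / n) ^ n * (y * (n + 1)) * (n : ℝ) ^ n =
      x ^ n * y * ((n : ℝ) + 1) ^ (n + 1) := by
    rw [div_pow, mul_pow, pow_succ]
    field_simp
  calc x ^ n * y * ((n : ℝ) + 1) ^ (n + 1) = (x * (n + 1) / n) ^ n * (y * (n + 1)) * (n : ℝ) ^ n :=
        h5.symm
    _ ≤ 1 * (n : ℝ) ^ n := by gcongr
    _ = _ := one_mul _

lemma phi_nonneg (n : ℕ) : 0 ≤ phi n := by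
  rw [phi]; positivity

lemma ineq_big (m : ℕ) {α β : ℝ} (hα : 0 ≤ α) (hβ : 0 ≤ β) (h : α ^ 2 + β ^ 2 ≤ 2) :
    β * α ^ (2 * m + 1) ≤ 2 ^ (m + 1) * √(phi (2 * m + 1)) := by
  have h1 := amgm (n := 2 * m + 1) (by omega) (x := α ^ 2 / 2) (y := β ^ 2 / 2) (by positivity)
    (by positivity) (by linarith)
  have h2 : (β * α ^ (2 * m + 1)) ^ 2 ≤ (2 ^ (m + 1) * √(phi (2 * m + 1))) ^ 2 := by
    rw [mul_pow (2 ^ (m + 1)) _ 2, Real.sq_sqrt (phi_nonneg _)]
    have h3 : (β * α ^ (2 * m + 1)) ^ 2 =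
        (2 ^ (m + 1)) ^ 2 * ((α ^ 2 / 2) ^ (2 * m + 1) * (β ^ 2 / 2)) := by
      rw [mul_pow, div_pow, ← pow_mul, ← pow_mul, ← pow_mul]
      have h4 : (2 : ℝ) ^ ((m + 1) * 2) = 2 ^ (2 * m + 1) * 2 := by
        rw [← pow_succ]; congr 1; ring
      rw [h4, mul_comm 2 (2 * m + 1)]
      field_simp
    rw [h3]
    gcongr
  exact le_of_sq_le_sq h2 (by positivity)

lemma ineq_small (m : ℕ) {α β : ℝ} (hα : 0 ≤ α) (hβ : 0 ≤ β) (h : α ^ 2 + β ^ 2 ≤ 2)
    (hba : β ≤ α) : α * β ^ (2 * m + 1) ≤ 1 := by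
  have h1 : β ≤ 1 := by nlinarith
  have h2 : α * β ≤ 1 := by nlinarith [sq_nonneg (α - β)]
  calc α * β ^ (2 * m + 1) = (α * β) * β ^ (2 * m) := by ring
    _ ≤ 1 * 1 := by
      apply mul_le_mul h2 (pow_le_one₀ hβ h1) (by positivity) (by norm_num)
    _ = 1 := by norm_num

lemma ineq_all (m : ℕ) {α β : ℝ} (hα : 0 ≤ α) (hβ : 0 ≤ β) (h : α ^ 2 + β ^ 2 ≤ 2) :
    (β * α ^ (2 * m + 1) + α * β ^ (2 * m + 1)) / 2 ≤
      2 ^ m * (√(phi (2 * m + 1)) + (1 / 2) ^ (m + 1)) := by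
  have e1 : (2 : ℝ) ^ m * (√(phi (2 * m + 1)) + (1 / 2) ^ (m + 1)) =
      (2 ^ (m + 1) * √(phi (2 * m + 1)) + 1) / 2 := by
    have : (2 : ℝ) ^ m * (1 / 2) ^ (m + 1) = 1 / 2 := by
      rw [pow_succ, ← mul_assoc, ← mul_pow]
      norm_num
    rw [mul_add, this, pow_succ]
    ring
  rw [e1]
  apply div_le_div_of_nonneg_right _ (by norm_num)
  rcases le_total β α with hba | hab
  · have h1 := ineq_big m hα hβ h
    have h2 := ineq_small m hα hβ h hba
    linarith
  · have h1 := ineq_big m hβ hα (by linarith)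
    have h2 := ineq_small m hβ hα (by linarith) hab
    linarith

lemma ineq_two {α β : ℝ} (hα : 0 ≤ α) (hβ : 0 ≤ β) (h : α ^ 2 + β ^ 2 ≤ 2) :
    (β * α ^ (2 * 1 + 1) + α * β ^ (2 * 1 + 1)) / 2 ≤ 1 := by
  have h2 : α * β ≤ 1 := by nlinarith [sq_nonneg (α - β)]
  have h3 : 0 ≤ α * β := mul_nonneg hα hβ
  have h4 : (β * α ^ (2 * 1 + 1) + α * β ^ (2 * 1 + 1)) / 2 = α * β * (α ^ 2 + β ^ 2) / 2 := by ring
  rw [h4]
  nlinarith

end Inequalities

theorem upper_gen (m : ℕ) {p q : ι} (hpq : p ≠ q) :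
    polyIndex (Ell1 ι) (m + 1) ≤ √(phi (2 * m + 1)) + (1 / 2) ^ (m + 1) := by
  classical
  have h0 : (0 : ℝ) ≤ √(phi (2 * m + 1)) := Real.sqrt_nonneg _
  have h1 := index_le (ex m p q) (N := 2 ^ m)
    (B := 2 ^ m * (√(phi (2 * m + 1)) + (1 / 2) ^ (m + 1))) (by positivity)
    (ex_norm m hpq) (ex_num m hpq (by positivity) fun α β hα hβ h => ineq_all m hα hβ h)
  rwa [mul_div_cancel_left₀ _ (by positivity)] at h1

theorem upper_two {p q : ι} (hpq : p ≠ q) : polyIndex (Ell1 ι) 2 ≤ 1 / 2 := by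
  classical
  have h1 := index_le (ex 1 p q) (N := 2 ^ 1) (B := 1) (by positivity)
    (ex_norm 1 hpq) (ex_num 1 hpq (by positivity) fun α β hα hβ h => ineq_two hα hβ h)
  simpa using h1

/-- there are polynomials of norm one -/
theorem exists_norm_one (m : ℕ) {p q : ι} (hpq : p ≠ q) :
    ∃ A : ContinuousMultilinearMap ℂ (fun _ : Fin (m + 1) => Ell1 ι) (Ell1 ι), polyNorm A = 1 := by
  classical
  set A := ex m p q with hA
  have hM : 0 < polyNorm A := lt_of_lt_of_le (by positivity) (ex_norm m hpq)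
  set M := polyNorm A with hMdef
  set A' : ContinuousMultilinearMap ℂ (fun _ : Fin (m + 1) => Ell1 ι) (Ell1 ι) := (M : ℂ)⁻¹ • A
    with hA'
  have hnorm : ∀ x : Ell1 ι, ‖A' (fun _ => x)‖ = M⁻¹ * ‖A (fun _ => x)‖ := by
    intro x
    rw [hA', ContinuousMultilinearMap.smul_apply, norm_smul, norm_inv, Complex.norm_real,
      Real.norm_of_nonneg hM.le]
  refine ⟨A', le_antisymm ?_ ?_⟩
  · apply Real.sSup_le _ zero_le_one
    rintro _ ⟨x, hx, rfl⟩
    rw [hnorm, inv_mul_le_iff₀ hM, mul_one]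
    exact le_polyNorm A hx
  · have : M ≤ M * polyNorm A' := by
      conv_lhs => rw [hMdef]
      apply Real.sSup_le _ (mul_nonneg hM.le (polyNorm_nonneg A'))
      rintro _ ⟨x, hx, rfl⟩
      have h3 := le_polyNorm A' hx
      rw [hnorm, inv_mul_le_iff₀ hM] at h3
      exact h3
    have h4 : M * 1 ≤ M * polyNorm A' := by rwa [mul_one]
    exact le_of_mul_le_mul_left h4 hM

theorem lower_gen (m : ℕ) {p q : ι} (hpq : p ≠ q) :
    √(phi (2 * m + 3)) ≤ polyIndex (Ell1 ι) (m + 2) :=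
  le_index (Real.sqrt_nonneg _) (exists_norm_one (m + 1) hpq)
    fun A x hx => lower_phi m A x hx

theorem upper_sup (m : ℕ) {p q : ι} (hpq : p ≠ q) {B : ℝ}
    (hB : ∀ s : ℝ, 0 ≤ s → s ≤ 1 → √(s * (1 - s)) * (s ^ m + (1 - s) ^ m) ≤ B) :
    polyIndex (Ell1 ι) (m + 1) ≤ B := by
  classical
  have hB0 : 0 ≤ B := by
    have := hB 0 le_rfl zero_le_one
    simpa using this
  have h1 := index_le (ex m p q) (N := 2 ^ m) (B := 2 ^ m * B) (by positivity)
    (ex_norm m hpq) (ex_num m hpq (by positivity) fun α β hα hβ h => ?_)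
  · rwa [mul_div_cancel_left₀ _ (by positivity)] at h1
  · set s : ℝ := α ^ 2 / 2 with hs
    set t : ℝ := β ^ 2 / 2 with ht
    have hs0 : 0 ≤ s := by positivity
    have ht0 : 0 ≤ t := by positivity
    have hst : t ≤ 1 - s := by rw [hs, ht]; linarith
    have h2 := hB s hs0 (by linarith)
    have h3 : √(s * t) * (s ^ m + t ^ m) ≤ √(s * (1 - s)) * (s ^ m + (1 - s) ^ m) := by
      gcongr
    have h4 : √(s * t) = α * β / 2 := by
      rw [hs, ht]
      have : α ^ 2 / 2 * (β ^ 2 / 2) = (α * β / 2) ^ 2 := by ring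
      rw [this, Real.sqrt_sq (by positivity)]
    have h5 : (β * α ^ (2 * m + 1) + α * β ^ (2 * m + 1)) / 2 =
        2 ^ m * (√(s * t) * (s ^ m + t ^ m)) := by
      rw [h4, hs, ht, div_pow, div_pow, ← pow_mul, ← pow_mul]
      field_simp
      ring
    rw [h5]
    exact mul_le_mul_of_nonneg_left (h3.trans h2) (by positivity)

end Pool.Agent.Y290.L1
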